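import Pool.Agent.Y89.KS.Defs3
import Pool.Agent.Y89.KS.Orth

/-!
# Expansion of matrices in Clifford monomials
-/

open Matrix Finset

namespace Pool.Agent.Y678.KS

open Pool.Agent.Y89.KS

noncomputable section

section joint

variable {V : Type} [AddCommGroup V] [Module ℂ V] {n : ℕ}

/-- induction on joint eigenvectors of commuting involutions -/
theorem joint {α : Fin n → Module.End ℂ V} (hinv : ∀ i f, α i (α i f) = f)
    (hcomm : ∀ i j f, α i (α j f) = α j (α i f)) (C P : V → Prop)
    (hC : ∀ f j, C f → C (f + α j f) ∧ C (f - α j f))
    (h : ∀ f, C f → ∀ χ : Fin n → ℤ, (∀ i, χ i = 1 ∨ χ i = -1) →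
      (∀ i, α i f = (χ i : ℂ) • f) → P f)
    (hadd : ∀ f g, P f → P g → P (f + g)) (hsmul : ∀ (c : ℂ) f, P f → P (c • f)) :
    ∀ f, C f → P f := by
  have key : ∀ k j : ℕ, j + k = n → ∀ f, C f → ∀ χ : Fin n → ℤ, (∀ i, χ i = 1 ∨ χ i = -1) →
      (∀ i : Fin n, i.val < j → α i f = (χ i : ℂ) • f) → P f := by
    intro k
    induction k with
    | zero =>
      intro j hj f hf χ hχ he
      refine h f hf χ hχ fun i => he i ?_
      have := i.isLt
      omega
    | succ k ih =>
      intro j hj f hf χ hχ he
      have hjn : j < n := by omega
      set a : Fin n := ⟨j, hjn⟩ with ha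
      obtain ⟨c1, c2⟩ := hC f a hf
      have h1 : P (f + α a f) := by
        refine ih (j + 1) (by omega) _ c1 (Function.update χ a 1) ?_ ?_
        · intro i
          by_cases hi : i = a
          · subst hi
            left
            simp
          · rw [Function.update_of_ne hi]
            exact hχ i
        · intro i hi
          by_cases hia : i = a
          · rw [hia, Function.update_self, map_add, hinv]
            simp [add_comm]
          · rw [Function.update_of_ne hia, map_add, hcomm i a, he i ?_, map_smul, smul_add]
            have : i.val ≠ j := fun h' => hia (Fin.ext h')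
            omega
      have h2 : P (f - α a f) := by
        refine ih (j + 1) (by omega) _ c2 (Function.update χ a (-1)) ?_ ?_
        · intro i
          by_cases hi : i = a
          · subst hi
            right
            simp
          · rw [Function.update_of_ne hi]
            exact hχ i
        · intro i hi
          by_cases hia : i = a
          · rw [hia, Function.update_self, map_sub, hinv]
            simp
          · rw [Function.update_of_ne hia, map_sub, hcomm i a, he i ?_, map_smul, smul_sub]
            have : i.val ≠ j := fun h' => hia (Fin.ext h')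
            omega
      have h3 := hsmul (1 / 2) _ (hadd _ _ h1 h2)
      have h4 : (1 / 2 : ℂ) • (f + α a f + (f - α a f)) = f := by
        rw [add_add_sub_cancel, ← two_smul ℂ f, smul_smul]
        norm_num
      rwa [h4] at h3
  intro f hf
  exact key n 0 (by omega) f hf (fun _ => 1) (fun _ => Or.inl rfl) fun i hi => absurd hi (by omega)

theorem list_eig {ι : Type} (l : List ι) (F : ι → Module.End ℂ V) (c : ι → ℂ) (f : V)
    (h : ∀ x, F x f = c x • f) : (l.map F).prod f = (l.map c).prod • f := by
  induction l with
  | nil => simp
  | cons a l ih =>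
    rw [List.map_cons, List.prod_cons, List.map_cons, List.prod_cons, Module.End.mul_apply, ih,
      map_smul, h a, smul_smul, mul_comm]

/-- the product of all `1 + α i α j` -/
def opA (α : Fin n → Module.End ℂ V) : Module.End ℂ V :=
  ((Finset.univ : Finset (Fin n × Fin n)).toList.map (fun x => 1 + α x.1 * α x.2)).prod

/-- its eigenvalue -/
def ev (χ : Fin n → ℤ) : ℤ := ∏ x : Fin n × Fin n, (1 + χ x.1 * χ x.2)

theorem opA_eig {α : Fin n → Module.End ℂ V} {f : V} {χ : Fin n → ℤ}
    (h : ∀ i, α i f = (χ i : ℂ) • f) : opA α f = (ev χ : ℂ) • f := by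
  unfold opA ev
  rw [list_eig _ _ (fun x : Fin n × Fin n => ((1 + χ x.1 * χ x.2 : ℤ) : ℂ)) f]
  · rw [Finset.prod_map_toList]
    push_cast
    rfl
  · intro x
    rw [LinearMap.add_apply, Module.End.one_apply, Module.End.mul_apply, h, map_smul, h, smul_smul]
    push_cast
    rw [add_smul, one_smul, mul_comm]

theorem ev_zero {χ : Fin n → ℤ} {i j : Fin n} (h : χ i * χ j = -1) : ev χ = 0 := by
  unfold ev
  refine Finset.prod_eq_zero (Finset.mem_univ (i, j)) ?_
  simp [h]

theorem ev_ne {χ : Fin n → ℤ} (h : ∀ i j, χ i * χ j = 1) : ev χ ≠ 0 := by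
  unfold ev
  refine Finset.prod_ne_zero_iff.2 fun x _ => ?_
  rw [h]
  norm_num

end joint

/-- the signs of `γ i` -/
def fl {n : ℕ} (i : Fin n) (χ : Fin n → ℤ) : Fin n → ℤ := fun j => χ j * (if j = i then 1 else -1)

/-- the multiplicities -/
def NN {n : ℕ} : ℕ → (Fin n → ℤ) → ℤ
  | 0, χ => ev χ ^ 2
  | k + 1, χ => ∑ i, NN k (fl i χ)

theorem NN_nonneg {n : ℕ} : ∀ (k : ℕ) (χ : Fin n → ℤ), 0 ≤ NN k χ := by
  intro k
  induction k with
  | zero => intro χ; exact sq_nonneg _
  | succ k ih => intro χ; exact Finset.sum_nonneg fun i _ => ih _

theorem NN_step {n : ℕ} (k : ℕ) (χ : Fin n → ℤ) (i : Fin n) : NN k (fl i χ) ≤ NN (k + 1) χ :=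
  Finset.single_le_sum (f := fun i => NN k (fl i χ)) (fun i _ => NN_nonneg k _) (Finset.mem_univ i)

theorem NN_pos {n : ℕ} : ∀ (m : ℕ) (χ : Fin n → ℤ), (∀ i, χ i = 1 ∨ χ i = -1) →
    (Finset.univ.filter (fun i => χ i = -1)).card = m → 0 < NN m χ := by
  intro m
  induction m using Nat.strong_induction_on with
  | _ m ih =>
    intro χ hχ hm
    match m, ih, hm with
    | 0, _, hm =>
      have h1 : ∀ i, χ i = 1 := by
        intro i
        rcases hχ i with h | h
        · exact h
        · exfalso
          have : i ∈ Finset.univ.filter (fun i => χ i = -1) := by simp [h]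
          rw [Finset.card_eq_zero.1 hm] at this
          simp at this
      have h2 : ev χ ≠ 0 := ev_ne fun i j => by rw [h1, h1]; norm_num
      exact sq_pos_of_ne_zero h2
    | 1, _, hm =>
      obtain ⟨a, ha⟩ := Finset.card_eq_one.1 hm
      have haχ : χ a = -1 := by
        have : a ∈ Finset.univ.filter (fun i => χ i = -1) := by rw [ha]; simp
        simpa using this
      have h1 : ∀ i, fl a χ i = -1 := by
        intro i
        unfold fl
        by_cases hi : i = a
        · rw [if_pos hi, hi, haχ]; norm_num
        · rw [if_neg hi]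
          rcases hχ i with h | h
          · rw [h]; norm_num
          · exfalso
            have : i ∈ Finset.univ.filter (fun i => χ i = -1) := by simp [h]
            rw [ha] at this
            exact hi (Finset.mem_singleton.1 this)
      have h2 : ev (fl a χ) ≠ 0 := ev_ne fun i j => by rw [h1, h1]; norm_num
      exact lt_of_lt_of_le (sq_pos_of_ne_zero h2) (NN_step 0 χ a)
    | m + 2, ih, hm =>
      obtain ⟨a, b, ha, hb, hab⟩ := Finset.one_lt_card_iff.1
        (show 1 < (Finset.univ.filter (fun i => χ i = -1)).card by omega)
      rw [Finset.mem_filter] at ha hb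
      have hfl : ∀ i, fl b (fl a χ) i = if i = a ∨ i = b then -χ i else χ i := by
        intro i
        unfold fl
        by_cases hia : i = a
        · have hib : i ≠ b := fun h => hab (hia.symm.trans h)
          simp [hia, hab]
        · by_cases hib : i = b
          · simp [hib, Ne.symm hab]
          · simp [hia, hib]
      have hset : Finset.univ.filter (fun i => fl b (fl a χ) i = -1) =
          ((Finset.univ.filter (fun i => χ i = -1)).erase a).erase b := by
        ext i
        rw [Finset.mem_filter, Finset.mem_erase, Finset.mem_erase, Finset.mem_filter, hfl]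
        by_cases hia : i = a
        · simp [hia, ha.2]
        · by_cases hib : i = b
          · simp [hib, hb.2]
          · simp [hia, hib]
      have h1 : 0 < NN m (fl b (fl a χ)) := by
        refine ih m (by omega) _ ?_ ?_
        · intro i
          rw [hfl]
          split_ifs
          · rcases hχ i with h | h <;> rw [h] <;> norm_num
          · exact hχ i
        · rw [hset, Finset.card_erase_of_mem, Finset.card_erase_of_mem]
          · omega
          · rw [Finset.mem_filter]; exact ha
          · rw [Finset.mem_erase, Finset.mem_filter]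
            exact ⟨Ne.symm hab, hb⟩
      exact lt_of_lt_of_le h1 ((NN_step m (fl a χ) b).trans (NN_step (m + 1) χ a))

end

end Pool.Agent.Y678.KS
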