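import Pool.Agent.Y678.KS.Cexp

/-!
# Expansion of matrices in Clifford monomials, II
-/

open Matrix Finset

namespace Pool.Agent.Y678.KS

open Pool.Agent.Y89.KS

noncomputable section

variable {N : Type} [Fintype N] [DecidableEq N] {n m : ℕ}

/-- orthonormal generators -/
def Onb (γ : Fin n → Matrix N N ℂ) : Prop :=
  (∀ i, γ i * γ i = 1) ∧ ∀ i j, i ≠ j → γ i * γ j = -(γ j * γ i)

/-- conjugation -/
def al (γ : Fin n → Matrix N N ℂ) (i : Fin n) : Module.End ℂ (Matrix N N ℂ) :=
  LinearMap.mulLeft ℂ (γ i) ∘ₗ LinearMap.mulRight ℂ (γ i)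

theorem al_apply (γ : Fin n → Matrix N N ℂ) (i : Fin n) (f : Matrix N N ℂ) :
    al γ i f = γ i * (f * γ i) := rfl

variable {γ : Fin n → Matrix N N ℂ}

theorem al_inv (h : Onb γ) (i : Fin n) (f : Matrix N N ℂ) : al γ i (al γ i f) = f := by
  rw [al_apply, al_apply]
  calc γ i * (γ i * (f * γ i) * γ i) = (γ i * γ i) * f * (γ i * γ i) := by
        simp only [Matrix.mul_assoc]
    _ = f := by rw [h.1, Matrix.one_mul, Matrix.mul_one]

theorem al_comm (h : Onb γ) (i j : Fin n) (f : Matrix N N ℂ) :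
    al γ i (al γ j f) = al γ j (al γ i f) := by
  by_cases hij : i = j
  · rw [hij]
  rw [al_apply, al_apply, al_apply, al_apply]
  calc γ i * (γ j * (f * γ j) * γ i) = (γ i * γ j) * f * (γ j * γ i) := by
        simp only [Matrix.mul_assoc]
    _ = (γ j * γ i) * f * (γ i * γ j) := by
        rw [h.2 i j hij]
        simp only [Matrix.neg_mul, Matrix.mul_neg, Matrix.mul_assoc]
    _ = _ := by simp only [Matrix.mul_assoc]

theorem al_all (h : Onb γ) (P : Matrix N N ℂ → Prop)
    (hP : ∀ f, ∀ χ : Fin n → ℤ, (∀ i, χ i = 1 ∨ χ i = -1) →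
      (∀ i, al γ i f = (χ i : ℂ) • f) → P f)
    (hadd : ∀ f g, P f → P g → P (f + g)) (hsmul : ∀ (c : ℂ) f, P f → P (c • f)) :
    ∀ f, P f := fun f =>
  joint (al_inv h) (al_comm h) (fun _ => True) P (fun _ _ _ => ⟨trivial, trivial⟩)
    (fun f _ => hP f) hadd hsmul f trivial

theorem opA_al (h : Onb γ) (i : Fin n) (f : Matrix N N ℂ) :
    al γ i (opA (al γ) f) = opA (al γ) (al γ i f) := by
  refine al_all h (fun f => al γ i (opA (al γ) f) = opA (al γ) (al γ i f)) ?_ ?_ ?_ f
  · intro f χ _ he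
    rw [opA_eig he, map_smul, he, map_smul, opA_eig he, smul_smul, smul_smul, mul_comm]
  · intro f g hf hg
    rw [map_add, map_add, map_add, map_add, hf, hg]
  · intro c f hf
    rw [map_smul, map_smul, map_smul, map_smul, hf]

theorem opA_mem (h : Onb γ) (i j : Fin n) (f : Matrix N N ℂ) :
    al γ i (al γ j (opA (al γ) f)) = opA (al γ) f := by
  refine al_all h (fun f => al γ i (al γ j (opA (al γ) f)) = opA (al γ) f) ?_ ?_ ?_ f
  · intro f χ hχ he
    rw [opA_eig he, map_smul, he, map_smul, map_smul, he, smul_smul, smul_smul]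
    have h1 : χ i * χ j = 1 ∨ χ i * χ j = -1 := by
      rcases hχ i with h | h <;> rcases hχ j with h' | h' <;> rw [h, h'] <;> norm_num
    rcases h1 with h1 | h1
    · have h2 : (χ j : ℂ) * (χ i : ℂ) = 1 := by
        rw [mul_comm]
        exact_mod_cast h1
      rw [mul_assoc, h2, mul_one]
    · rw [ev_zero h1]
      simp
  · intro f g hf hg
    rw [map_add, map_add, map_add, hf, hg]
  · intro c f hf
    rw [map_smul, map_smul, map_smul, hf]

theorem al_tr (h : Onb γ) (i : Fin n) (f g : Matrix N N ℂ) :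
    (al γ i f * al γ i g).trace = (f * g).trace := by
  rw [al_apply, al_apply]
  calc (γ i * (f * γ i) * (γ i * (g * γ i))).trace
      = (γ i * (f * (γ i * γ i) * g * γ i)).trace := by simp only [Matrix.mul_assoc]
    _ = (γ i * (f * g * γ i)).trace := by rw [h.1, Matrix.mul_one]
    _ = (f * g * γ i * γ i).trace := by rw [Matrix.trace_mul_comm]
    _ = (f * g * (γ i * γ i)).trace := by simp only [Matrix.mul_assoc]
    _ = (f * g).trace := by rw [h.1, Matrix.mul_one]

theorem opA_adj (h : Onb γ) (f g : Matrix N N ℂ) :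
    (opA (al γ) f * g).trace = (f * opA (al γ) g).trace := by
  refine al_all h (fun f => (opA (al γ) f * g).trace = (f * opA (al γ) g).trace) ?_ ?_ ?_ f
  · intro f χ hχ he
    refine al_all h (fun g => (opA (al γ) f * g).trace = (f * opA (al γ) g).trace) ?_ ?_ ?_ g
    · intro g χ' hχ' he'
      rw [opA_eig he, opA_eig he', Matrix.smul_mul, Matrix.mul_smul, Matrix.trace_smul,
        Matrix.trace_smul]
      by_cases hc : χ = χ'
      · rw [hc]
      · obtain ⟨i, hi⟩ := Function.ne_iff.1 hc
        have h1 := al_tr h i f g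
        rw [he, he', Matrix.smul_mul, Matrix.mul_smul, smul_smul, Matrix.trace_smul] at h1
        have h2 : (χ i : ℂ) * (χ' i : ℂ) = -1 := by
          have : χ i * χ' i = -1 := by
            rcases hχ i with h | h <;> rcases hχ' i with h' | h' <;> rw [h, h'] at hi ⊢ <;>
              first | exact absurd rfl hi | norm_num
          exact_mod_cast this
        rw [h2, smul_eq_mul] at h1
        have h3 : (f * g).trace = 0 := by linear_combination (-1 / 2) * h1
        rw [h3, smul_zero, smul_zero]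
    · intro g g' hg hg'
      rw [map_add, Matrix.mul_add, Matrix.mul_add, Matrix.trace_add, Matrix.trace_add, hg, hg']
    · intro c g hg
      rw [map_smul, Matrix.mul_smul, Matrix.mul_smul, Matrix.trace_smul, Matrix.trace_smul, hg]
  · intro f f' hf hf'
    rw [map_add, Matrix.add_mul, Matrix.add_mul, Matrix.trace_add, Matrix.trace_add, hf, hf']
  · intro c f hf
    rw [map_smul, Matrix.smul_mul, Matrix.smul_mul, Matrix.trace_smul, Matrix.trace_smul, hf]

/-- the first dual family -/
def dd (γ : Fin n → Matrix N N ℂ) (x : N × N) : Matrix N N ℂ :=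
  opA (al γ) (Matrix.single x.1 x.2 1)

theorem dd_sum (h : Onb γ) (f : Matrix N N ℂ) :
    ∑ x : N × N, (f * dd γ x.swap).trace • dd γ x = opA (al γ) (opA (al γ) f) := by
  conv_rhs => rw [Matrix.matrix_eq_sum_single (opA (al γ) f)]
  rw [map_sum, Fintype.sum_prod_type]
  refine Finset.sum_congr rfl fun r _ => ?_
  rw [map_sum]
  refine Finset.sum_congr rfl fun s _ => ?_
  have h1 : (f * dd γ (r, s).swap).trace = opA (al γ) f r s := by
    unfold dd
    rw [← opA_adj h, Prod.fst_swap, Prod.snd_swap, Matrix.trace_mul_single]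
    simp
  rw [h1]
  unfold dd
  rw [← map_smul, Matrix.smul_single, smul_eq_mul, mul_one]

theorem dd_comm (h : Onb γ) (x : N × N) (i j : Fin n) :
    dd γ x * (γ i * γ j) = γ i * γ j * dd γ x := by
  have h1 := opA_mem h i j (Matrix.single x.1 x.2 (1 : ℂ))
  rw [al_apply, al_apply] at h1
  change γ i * (γ j * (dd γ x * γ j) * γ i) = dd γ x at h1
  calc dd γ x * (γ i * γ j) = γ i * (γ j * (dd γ x * γ j) * γ i) * (γ i * γ j) := by rw [h1]
    _ = γ i * γ j * dd γ x * (γ j * (γ i * γ i) * γ j) := by simp only [Matrix.mul_assoc]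
    _ = _ := by rw [h.1, Matrix.mul_one, h.1, Matrix.mul_one]

section cS

variable {γ' : Fin n → Matrix N N ℂ} {d d' : Fin m → Matrix N N ℂ}

theorem cS_add (k : ℕ) : ∀ f g : Matrix N N ℂ,
    cS γ γ' d d' k (f + g) = cS γ γ' d d' k f + cS γ γ' d d' k g := by
  induction k with
  | zero =>
    intro f g
    show ∑ l, ((f + g) * d' l).trace • d l = ∑ l, (f * d' l).trace • d l +
      ∑ l, (g * d' l).trace • d l
    rw [← Finset.sum_add_distrib]
    refine Finset.sum_congr rfl fun l _ => ?_
    rw [Matrix.add_mul, Matrix.trace_add, add_smul]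
  | succ k ih =>
    intro f g
    show ∑ i, cS γ γ' d d' k ((f + g) * γ i) * γ' i = ∑ i, cS γ γ' d d' k (f * γ i) * γ' i +
      ∑ i, cS γ γ' d d' k (g * γ i) * γ' i
    rw [← Finset.sum_add_distrib]
    refine Finset.sum_congr rfl fun i _ => ?_
    rw [Matrix.add_mul, ih, Matrix.add_mul]

theorem cS_smul (k : ℕ) : ∀ (c : ℂ) (f : Matrix N N ℂ),
    cS γ γ' d d' k (c • f) = c • cS γ γ' d d' k f := by
  induction k with
  | zero =>
    intro c f
    show ∑ l, ((c • f) * d' l).trace • d l = c • ∑ l, (f * d' l).trace • d l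
    rw [Finset.smul_sum]
    refine Finset.sum_congr rfl fun l _ => ?_
    rw [Matrix.smul_mul, Matrix.trace_smul, smul_assoc]
  | succ k ih =>
    intro c f
    show ∑ i, cS γ γ' d d' k ((c • f) * γ i) * γ' i = c • ∑ i, cS γ γ' d d' k (f * γ i) * γ' i
    rw [Finset.smul_sum]
    refine Finset.sum_congr rfl fun i _ => ?_
    rw [Matrix.smul_mul, ih, Matrix.smul_mul]

theorem cS_sum {ι : Type} (s : Finset ι) (k : ℕ) (F : ι → Matrix N N ℂ) :
    cS γ γ' d d' k (∑ i ∈ s, F i) = ∑ i ∈ s, cS γ γ' d d' k (F i) := by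
  classical
  induction s using Finset.induction_on with
  | empty =>
    rw [Finset.sum_empty, Finset.sum_empty]
    have := cS_smul (γ := γ) (γ' := γ') (d := d) (d' := d') k 0 0
    rwa [zero_smul, zero_smul] at this
  | insert a s ha ih => rw [Finset.sum_insert ha, Finset.sum_insert ha, cS_add, ih]

end cS

theorem fl_eig (h : Onb γ) {f : Matrix N N ℂ} {χ : Fin n → ℤ}
    (he : ∀ i, al γ i f = (χ i : ℂ) • f) (i j : Fin n) :
    al γ j (f * γ i) = (fl i χ j : ℂ) • (f * γ i) := by
  have h1 : γ j * γ i * γ j = (if j = i then (1 : ℂ) else -1) • γ i := by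
    by_cases hij : j = i
    · rw [if_pos hij, hij, h.1, Matrix.one_mul, one_smul]
    · rw [if_neg hij, h.2 j i hij, Matrix.neg_mul, Matrix.mul_assoc, h.1, Matrix.mul_one, neg_smul,
        one_smul]
  calc al γ j (f * γ i) = γ j * (f * γ i * γ j) := rfl
    _ = γ j * (f * (γ j * γ j) * γ i * γ j) := by rw [h.1, Matrix.mul_one]
    _ = (γ j * (f * γ j)) * (γ j * γ i * γ j) := by simp only [Matrix.mul_assoc]
    _ = ((χ j : ℂ) • f) * ((if j = i then (1 : ℂ) else -1) • γ i) := by
        rw [h1, ← al_apply, he]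
    _ = _ := by
        rw [Matrix.smul_mul, Matrix.mul_smul, smul_smul]
        unfold fl
        congr 1
        push_cast
        rfl

theorem cS_eig (h : Onb γ) {d d' : Fin m → Matrix N N ℂ}
    (hd : ∀ f, ∑ l, (f * d' l).trace • d l = opA (al γ) (opA (al γ) f)) (k : ℕ) :
    ∀ (f : Matrix N N ℂ) (χ : Fin n → ℤ), (∀ i, al γ i f = (χ i : ℂ) • f) →
      cS γ γ d d' k f = (NN k χ : ℂ) • f := by
  induction k with
  | zero =>
    intro f χ he
    show ∑ l, (f * d' l).trace • d l = (((ev χ) ^ 2 : ℤ) : ℂ) • f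
    rw [hd, opA_eig he, map_smul, opA_eig he, smul_smul]
    push_cast
    rw [sq]
  | succ k ih =>
    intro f χ he
    show ∑ i, cS γ γ d d' k (f * γ i) * γ i = ((∑ i, NN k (fl i χ) : ℤ) : ℂ) • f
    push_cast
    rw [Finset.sum_smul]
    refine Finset.sum_congr rfl fun i _ => ?_
    rw [ih (f * γ i) (fl i χ) (fl_eig h he i), Matrix.smul_mul, Matrix.mul_assoc, h.1,
      Matrix.mul_one]

theorem inj (h : Onb γ) {d d' : Fin m → Matrix N N ℂ}
    (hd : ∀ f, ∑ l, (f * d' l).trace • d l = opA (al γ) (opA (al γ) f)) (f : Matrix N N ℂ)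
    (hf : ∑ k ∈ Finset.range (n + 1), cS γ γ d d' k f = 0) : f = 0 := by
  have hS : ∀ (f : Matrix N N ℂ) (χ : Fin n → ℤ), (∀ i, al γ i f = (χ i : ℂ) • f) →
      ∑ k ∈ Finset.range (n + 1), cS γ γ d d' k f =
        ((∑ k ∈ Finset.range (n + 1), NN k χ : ℤ) : ℂ) • f := by
    intro f χ he
    push_cast
    rw [Finset.sum_smul]
    exact Finset.sum_congr rfl fun k _ => cS_eig h hd k f χ he
  have hcomm : ∀ (i : Fin n) (f : Matrix N N ℂ),
      al γ i (∑ k ∈ Finset.range (n + 1), cS γ γ d d' k f) =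
        ∑ k ∈ Finset.range (n + 1), cS γ γ d d' k (al γ i f) := by
    intro i f
    refine al_all h (fun f => al γ i (∑ k ∈ Finset.range (n + 1), cS γ γ d d' k f) =
        ∑ k ∈ Finset.range (n + 1), cS γ γ d d' k (al γ i f)) ?_ ?_ ?_ f
    · intro f χ _ he
      have he' : ∀ j, al γ j (al γ i f) = (χ j : ℂ) • al γ i f := by
        intro j
        rw [he i, map_smul, he j, smul_comm]
      rw [hS f χ he, hS _ χ he', map_smul]
    · intro f g hf hg
      simp only [map_add, cS_add, Finset.sum_add_distrib] at hf hg ⊢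
      rw [hf, hg]
    · intro c f hf
      simp only [map_smul, cS_smul, ← Finset.smul_sum] at hf ⊢
      rw [hf]
  refine joint (al_inv h) (al_comm h)
    (fun f => ∑ k ∈ Finset.range (n + 1), cS γ γ d d' k f = 0) (fun f => f = 0) ?_ ?_ ?_ ?_ f hf
  · intro f j hf
    have h1 : ∑ k ∈ Finset.range (n + 1), cS γ γ d d' k (al γ j f) = 0 := by
      rw [← hcomm, hf, map_zero]
    constructor
    · simp only [cS_add, Finset.sum_add_distrib]
      rw [hf, h1, add_zero]
    · have h2 : f - al γ j f = f + (-1 : ℂ) • al γ j f := by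
        rw [neg_smul, one_smul, sub_eq_add_neg]
      simp only [h2, cS_add, cS_smul, Finset.sum_add_distrib, ← Finset.smul_sum]
      rw [hf, h1, smul_zero, add_zero]
  · intro f hf χ hχ he
    rw [hS f χ he] at hf
    rcases smul_eq_zero.1 hf with h1 | h1
    · exfalso
      have h2 : ∑ k ∈ Finset.range (n + 1), NN k χ = 0 := by exact_mod_cast h1
      set c := (Finset.univ.filter (fun i => χ i = -1)).card with hc
      have h3 := NN_pos c χ hχ rfl
      have h4 : c ∈ Finset.range (n + 1) := by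
        rw [Finset.mem_range, hc]
        have := Finset.card_filter_le (Finset.univ : Finset (Fin n)) (fun i => χ i = -1)
        rw [Finset.card_univ, Fintype.card_fin] at this
        omega
      have h5 := Finset.single_le_sum (f := fun k => NN k χ) (fun k _ => NN_nonneg k χ) h4
      omega
    · exact h1
  · intro f g hf hg
    rw [hf, hg, add_zero]
  · intro c f hf
    rw [hf, smul_zero]

end

end Pool.Agent.Y678.KS
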