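import Pool.Agent.Y678.KS.Cexp2

/-!
# Expansion of matrices in Clifford monomials, III
-/

open Matrix Finset

namespace Pool.Agent.Y678.KS

open Pool.Agent.Y89.KS

noncomputable section

variable {N : Type} [Fintype N] [DecidableEq N] {n m : ℕ}

theorem mul_sums (a b : Fin n → ℂ) (A B : Fin n → Matrix N N ℂ) :
    (∑ i, a i • A i) * (∑ j, b j • B j) = ∑ i, ∑ j, (a i * b j) • (A i * B j) := by
  rw [Finset.sum_mul_sum]
  refine Finset.sum_congr rfl fun i _ => Finset.sum_congr rfl fun j _ => ?_
  rw [Matrix.smul_mul, Matrix.mul_smul, smul_smul]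

theorem cS_change {Γ Γ' γ : Fin n → Matrix N N ℂ} {R U : Matrix (Fin n) (Fin n) ℂ}
    (hΓ' : ∀ i, Γ' i = ∑ j, R i j • Γ j) (hγ : ∀ a, γ a = ∑ i, U i a • Γ i) (hU : U * Uᵀ = R)
    {d d' : Fin m → Matrix N N ℂ} (k : ℕ) :
    ∀ f, cS Γ Γ' d d' k f = cS γ γ d d' k f := by
  induction k with
  | zero => intro f; rfl
  | succ k ih =>
    intro f
    show ∑ i, cS Γ Γ' d d' k (f * Γ i) * Γ' i = ∑ a, cS γ γ d d' k (f * γ a) * γ a
    have h1 : ∀ a, cS γ γ d d' k (f * γ a) = ∑ i, U i a • cS γ γ d d' k (f * Γ i) := by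
      intro a
      rw [hγ, Matrix.mul_sum, cS_sum]
      refine Finset.sum_congr rfl fun i _ => ?_
      rw [Matrix.mul_smul, cS_smul]
    have h2 : ∀ i j, R i j = ∑ a, U i a * U j a := by
      intro i j
      rw [← hU, Matrix.mul_apply]
      rfl
    calc ∑ i, cS Γ Γ' d d' k (f * Γ i) * Γ' i
        = ∑ i, ∑ j, ∑ a, (U i a * U j a) • (cS γ γ d d' k (f * Γ i) * Γ j) := by
          refine Finset.sum_congr rfl fun i _ => ?_
          rw [ih, hΓ', Matrix.mul_sum]
          refine Finset.sum_congr rfl fun j _ => ?_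
          rw [Matrix.mul_smul, h2, Finset.sum_smul]
      _ = ∑ a, ∑ i, ∑ j, (U i a * U j a) • (cS γ γ d d' k (f * Γ i) * Γ j) := by
          rw [Finset.sum_comm]
          conv_lhs =>
            enter [2, j]
            rw [Finset.sum_comm]
          rw [Finset.sum_comm]
          refine Finset.sum_congr rfl fun a _ => ?_
          rw [Finset.sum_comm]
      _ = ∑ a, cS γ γ d d' k (f * γ a) * γ a := by
          refine Finset.sum_congr rfl fun a _ => ?_
          rw [h1, Matrix.sum_mul]
          refine Finset.sum_congr rfl fun i _ => ?_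
          conv_rhs => rw [hγ, Matrix.mul_sum]
          refine Finset.sum_congr rfl fun j _ => ?_
          rw [Matrix.smul_mul, Matrix.mul_smul, smul_smul]

/-- (CEXP) -/
theorem cexp : S_cexp := by
  intro N _ _ n Q R Γ hQ hQR hΓ
  have hdet : Q.det ≠ 0 := by
    intro h
    have h1 := congrArg Matrix.det hQR
    rw [Matrix.det_mul, h, zero_mul, Matrix.det_one] at h1
    exact zero_ne_one h1
  obtain ⟨U, U', hU1, hU2, hU3⟩ := orth Q hQ hdet
  have hUU : U * Uᵀ = R := by
    have h1 : Uᵀ * (Q * U) = 1 := by rw [← Matrix.mul_assoc]; exact hU1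
    have h2 : Q * U * Uᵀ = 1 := mul_eq_one_comm.1 h1
    have h3 : R * Q = 1 := mul_eq_one_comm.1 hQR
    calc U * Uᵀ = R * Q * (U * Uᵀ) := by rw [h3, Matrix.one_mul]
      _ = R * (Q * U * Uᵀ) := by simp only [Matrix.mul_assoc]
      _ = R := by rw [h2, Matrix.mul_one]
  set γ : Fin n → Matrix N N ℂ := fun a => ∑ i, U i a • Γ i with hγ
  have hrel : ∀ a b, γ a * γ b + γ b * γ a = (if a = b then (2 : ℂ) else 0) • (1 : Matrix N N ℂ) := by
    intro a b
    have h1 : γ a * γ b = ∑ i, ∑ j, (U i a * U j b) • (Γ i * Γ j) := mul_sums _ _ _ _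
    have h2 : γ b * γ a = ∑ i, ∑ j, (U i a * U j b) • (Γ j * Γ i) := by
      rw [Finset.sum_comm]
      refine (mul_sums (fun i => U i b) (fun i => U i a) Γ Γ).trans ?_
      refine Finset.sum_congr rfl fun i _ => Finset.sum_congr rfl fun j _ => ?_
      rw [mul_comm (U i b)]
    have h3 : ∑ i, ∑ j, (U i a * U j b) * (2 * Q i j) = if a = b then (2 : ℂ) else 0 := by
      have h4 : (Uᵀ * Q * U) a b = ∑ i, ∑ j, (U i a * U j b) * Q i j := by
        rw [Matrix.mul_apply]
        rw [Finset.sum_comm]
        refine Finset.sum_congr rfl fun j _ => ?_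
        rw [Matrix.mul_apply, Finset.sum_mul]
        refine Finset.sum_congr rfl fun i _ => ?_
        rw [Matrix.transpose_apply]
        ring
      rw [hU1, Matrix.one_apply] at h4
      calc ∑ i, ∑ j, (U i a * U j b) * (2 * Q i j) = 2 * ∑ i, ∑ j, (U i a * U j b) * Q i j := by
            rw [Finset.mul_sum]
            refine Finset.sum_congr rfl fun i _ => ?_
            rw [Finset.mul_sum]
            refine Finset.sum_congr rfl fun j _ => ?_
            ring
        _ = _ := by
            rw [← h4]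
            split_ifs <;> norm_num
    rw [h1, h2, ← Finset.sum_add_distrib, ← h3, Finset.sum_smul]
    refine Finset.sum_congr rfl fun i _ => ?_
    rw [← Finset.sum_add_distrib, Finset.sum_smul]
    refine Finset.sum_congr rfl fun j _ => ?_
    rw [← smul_add, hΓ, smul_smul]
  have honb : Onb γ := by
    constructor
    · intro i
      have h1 := hrel i i
      rw [if_pos rfl, ← two_smul ℂ (γ i * γ i)] at h1
      exact smul_right_injective _ (two_ne_zero (α := ℂ)) h1
    · intro i j hij
      have h1 := hrel i j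
      rw [if_neg hij, zero_smul] at h1
      exact eq_neg_of_add_eq_zero_left h1
  have hΓγ : ∀ i, Γ i = ∑ a, U' a i • γ a := by
    intro i
    have h1 : ∀ j, ∑ a, U' a i * U j a = if j = i then 1 else 0 := by
      intro j
      have h2 : (U * U') j i = ∑ a, U j a * U' a i := Matrix.mul_apply
      rw [hU2, Matrix.one_apply] at h2
      rw [h2]
      exact Finset.sum_congr rfl fun a _ => mul_comm _ _
    calc Γ i = ∑ j, (if j = i then (1 : ℂ) else 0) • Γ j := by
          simp
      _ = ∑ j, ∑ a, (U' a i * U j a) • Γ j := by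
          refine Finset.sum_congr rfl fun j _ => ?_
          rw [← h1, Finset.sum_smul]
      _ = ∑ a, ∑ j, (U' a i * U j a) • Γ j := Finset.sum_comm
      _ = _ := by
          refine Finset.sum_congr rfl fun a _ => ?_
          rw [hγ]
          dsimp only
          rw [Finset.smul_sum]
          refine Finset.sum_congr rfl fun j _ => ?_
          rw [smul_smul]
  have hcm : ∀ d : Matrix N N ℂ, (∀ a b, d * (γ a * γ b) = γ a * γ b * d) →
      ∀ i j, d * (Γ i * Γ j) = Γ i * Γ j * d := by
    intro d hd i j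
    have h1 : Γ i * Γ j = ∑ a, ∑ b, (U' a i * U' b j) • (γ a * γ b) := by
      rw [hΓγ i, hΓγ j]
      exact mul_sums _ _ _ _
    rw [h1, Matrix.mul_sum, Matrix.sum_mul]
    refine Finset.sum_congr rfl fun a _ => ?_
    rw [Matrix.mul_sum, Matrix.sum_mul]
    refine Finset.sum_congr rfl fun b _ => ?_
    rw [Matrix.mul_smul, Matrix.smul_mul, hd]
  let e := (Fintype.equivFin (N × N)).symm
  refine ⟨Fintype.card (N × N), fun l => dd γ (e l), fun l => dd γ (e l).swap, ?_, ?_, ?_⟩
  · intro l i j
    exact hcm _ (fun a b => dd_comm honb _ a b) i j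
  · intro l i j
    exact hcm _ (fun a b => dd_comm honb _ a b) i j
  · intro f hf
    have hd : ∀ f : Matrix N N ℂ, ∑ l, (f * dd γ (e l).swap).trace • dd γ (e l) =
        opA (al γ) (opA (al γ) f) := by
      intro f
      rw [← dd_sum honb f]
      exact e.sum_comp (fun x => (f * dd γ x.swap).trace • dd γ x)
    refine inj honb hd f ?_
    rw [← hf]
    refine Finset.sum_congr rfl fun k _ => ?_
    exact (cS_change (fun _ => rfl) (fun _ => rfl) hUU k f).symm

end

end Pool.Agent.Y678.KS
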